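import Pool.Agent.H.MP_6bfe6b_gt.Q1

namespace Pool.Agent.Results.MP_6bfe6b_gt.Q1Yes

open CategoryTheory Pool.Agent.H.MP_6bfe6b_gt

universe u

theorem result (F : CompHaus.{u} ⥤ CompHaus.{u}) (hm : Monomorphic F)
    (h : PreservesFinitePreimages F) : PreservesPreimages F :=
  q1 F hm h

end Pool.Agent.Results.MP_6bfe6b_gt.Q1Yes
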