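import Pool.Agent.H.MP_6bfe6b_gt.C

namespace Pool.Agent.Results.MP_6bfe6b_gt.Q2No

open CategoryTheory Pool.Agent.H.MP_6bfe6b_gt

universe u

theorem result : ∃ F : CompHaus.{u} ⥤ CompHaus.{u},
    Mec F ∧ PreservesFiniteOnePreimages F ∧ ¬ PreservesOnePreimages F :=
  ⟨FF, FF_mec, FF_fin, FF_not⟩

end Pool.Agent.Results.MP_6bfe6b_gt.Q2No
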